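import Mathlib

/-!
# Crew HY (MP_31bda2_co): unimodality of h* of the hypersimplex for C k log n <= n

`W b n a` = coefficient of `t^a` in `(1+t+...+t^(b-1))^n`, for `a : ℤ` (zero for negative `a`).
`F b y = 1 + y + ... + y^(b-1)`.

PLAN (paper proof, complete):
* KATZ: h_d = sum_{i<k} (-1)^i C(n,i) W (k-i) n ((k-i)d - i)  (Katzman).
* main term A_d = W k n (kd).  GAP: A_(d+1) >= (1+delta) A_d left of the centre, delta = 1/((n+1)k)^3.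
* TIL + UPB: the other terms are exponentially small against A_d when d and n/k are >= C log n.
* LDM: for small d the term L(d) dominates h_d.
* FIN: assembly.
-/

set_option autoImplicit false

namespace Pool.Agent.H87.HY

open Finset

/-- coefficient of `t^a` in `(1+t+...+t^(b-1))^n` -/
noncomputable def W (b : ℕ) : ℕ → ℤ → ℝ
  | 0, a => if a = 0 then 1 else 0
  | n + 1, a => ∑ j ∈ Finset.range b, W b n (a - (j : ℤ))

/-- `1 + y + ... + y^(b-1)` -/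
noncomputable def F (b : ℕ) (y : ℝ) : ℝ := ∑ j ∈ Finset.range b, y ^ j

/-- BAS: support, nonnegativity, positivity on the support, symmetry (all by induction on n). -/
def S_BAS : Prop :=
  (∀ (b n : ℕ) (a : ℤ), 0 ≤ W b n a) ∧
  (∀ (b n : ℕ) (a : ℤ), a < 0 → W b n a = 0) ∧
  (∀ (b n : ℕ) (a : ℤ), 1 ≤ b → (n : ℤ) * ((b : ℤ) - 1) < a → W b n a = 0) ∧
  (∀ (b n : ℕ) (a : ℤ), 1 ≤ b → 0 ≤ a → a ≤ (n : ℤ) * ((b : ℤ) - 1) → 1 ≤ W b n a) ∧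
  (∀ (b n : ℕ) (a : ℤ), 1 ≤ b → W b n ((n : ℤ) * ((b : ℤ) - 1) - a) = W b n a)

/-- PF2: strong log-concavity (nested form).  Proof: induction on n.  For the window sums
`s_i = sum_{p<b} a_(i-p)`: `s_(i+1) s_j - s_i s_(j+1) = sum_p (a_(i+1) a_(j-p) - a_(i-p) a_(j+1))
 + sum_p (a_(i-p) a_(j+1-b) - a_(i+1-b) a_(j-p))` for `i ≤ j`, each bracket is `≥ 0` by PF2 of `a`;
then pass from the step form to the nested form. -/
def S_PF2 : Prop :=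
  ∀ (b n : ℕ) (x y u v : ℤ), x + y = u + v → x ≤ u → x ≤ v →
    W b n x * W b n y ≤ W b n u * W b n v

/-- CNT: `W` counts (via `Fintype.sum_pow` or induction). -/
def S_CNT : Prop :=
  ∀ (b n a : ℕ), ((((Finset.univ : Finset (Fin n → Fin b)).filter
      (fun x => ∑ i, (x i : ℕ) = a)).card : ℕ) : ℝ) = W b n (a : ℤ)

/-- POL: generating function identity, one-sided bound with `zpow`, and convolution. -/
def S_POL : Prop :=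
  (∀ (b n : ℕ) (y : ℝ), 1 ≤ b →
    F b y ^ n = ∑ j ∈ Finset.range (n * (b - 1) + 1), W b n (j : ℤ) * y ^ j) ∧
  (∀ (b n : ℕ) (a : ℤ) (y : ℝ), 0 < y → W b n a * y ^ a ≤ F b y ^ n) ∧
  (∀ (b n m N : ℕ), W b (n + m) (N : ℤ)
    = ∑ i ∈ Finset.range (N + 1), W b n (i : ℤ) * W b m ((N : ℤ) - (i : ℤ)))

/-- KTZ: expansion in powers of `1/(1-t)`: there is `g` (coefficients of `(1-t)^(-n)`) with
`W b n a = sum_j (-1)^j C(n,j) g(a - b j)`, and `g` vanishes on negative integers. -/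
def S_KTG : Prop :=
  ∀ n : ℕ, ∃ g : ℤ → ℝ, (∀ a : ℤ, a < 0 → g a = 0) ∧
    ∀ (b : ℕ) (a : ℤ), W b n a
      = ∑ j ∈ Finset.range (n + 1), (-1 : ℝ) ^ j * (n.choose j : ℝ) * g (a - (b : ℤ) * (j : ℤ))

/-- KAT (Katzman): from KTG.  `L t = W (t+1) n (k t)`; swap the two sums. -/
def S_KAT : Prop :=
  ∀ (n k : ℕ), 0 < k → k ≤ n → ∀ d : ℕ,
    ∑ j ∈ Finset.range (d + 1), (-1 : ℝ) ^ j * (n.choose j : ℝ)
        * W (d - j + 1) n ((k : ℤ) * ((d : ℤ) - (j : ℤ)))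
      = ∑ i ∈ Finset.range k, (-1 : ℝ) ^ i * (n.choose i : ℝ)
        * W (k - i) n (((k : ℤ) - (i : ℤ)) * (d : ℤ) - (i : ℤ))

/-- CEN: the quantitative strictness at the centre.  With `M = m(b-1)`, `u_j = W b m j`
(symmetric): `W b (2m) M = sum u_j^2`, `W b (2m) (M-1) = sum u_j u_(j+1)`, so
`2(W M - W (M-1)) = u_0^2 + u_M^2 + sum (u_j - u_(j+1))^2 ≥ (max u)^2/(M+1)` (Cauchy-Schwarz on the
telescoping sum), `(M+1) max u ≥ b^m`, and `W b (2m) M ≤ b^(2m)`. -/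
def S_CEN : Prop :=
  ∀ (b m : ℕ), 2 ≤ b → 1 ≤ m →
    (1 + 1 / (2 * ((m : ℝ) * ((b : ℝ) - 1) + 1) ^ 3)) * W b (2 * m) ((m : ℤ) * ((b : ℤ) - 1) - 1)
      ≤ W b (2 * m) ((m : ℤ) * ((b : ℤ) - 1))

/-- GAP: `n` even: by symmetry and PF2 the ratio `W(p+k)/W(p)` is at least `W(p+1)/W(p)`, which is at
least the central ratio; `n` odd: `W k n (p+k) - W k n p = W k (n+1) (p+k) - W k (n+1) (p+k-1)`
and `p + k ≤ (n+1)(k-1)/2`, so the central ratio at level `n+1` gives it. -/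
def S_GAP : Prop :=
  ∀ (k n : ℕ) (p : ℤ), 2 ≤ k → 1 ≤ n → 2 * p + (k : ℤ) < (n : ℤ) * ((k : ℤ) - 1) →
    (1 + 1 / (((n : ℝ) + 1) * (k : ℝ)) ^ 3) * W k n p ≤ W k n (p + (k : ℤ))

/-- TIL: `y = W k n (m-1) / W k n m`.  Then `j ↦ W_j y^j` has its maximum at `m` (PF2), hence
`F^n = sum_(j ≤ n(k-1)) W_j y^j ≤ n k W_m y^m`.  Lower bound for `y`: `W_m ≥ y^(-m)` (all earlier
ratios are larger, `W_0 = 1`), while `W_m x^m ≤ F(x)^n ≤ (1-x)^(-n)`; take `x = m/(2n)` if `m ≤ n`,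
`x = 1/2` if `m > n`. -/
def S_TIL : Prop :=
  ∀ (k n m : ℕ), 2 ≤ k → 1 ≤ n → 1 ≤ m → m ≤ n * (k - 1) →
    ∃ y : ℝ, 0 < y ∧ min 1 ((m : ℝ) / (n : ℝ)) / 6 ≤ y ∧
      F k y ^ n ≤ (n : ℝ) * (k : ℝ) * W k n (m : ℤ) * y ^ m

/-- UPB: with `b = k - i`, `s^b = y`, `z = s^k`: `W b n q z^q ≤ F_b(z)^n` for `q = b d - i`, so
`W b n q y^(kd) ≤ s^(ki) F_b(s^k)^n`.  For `s ≤ 1`: `F_b(s^k) ≤ (1 - (i/k) s^b) F_k(s^b)`
(reduce to `i (1 - s^k) ≤ k (1 - s^i)`); for `s ≥ 1`: `F_b(s^k) ≤ (b/k) F_k(s^b)` and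
`s^i F_b(s^k) ≤ F_k(s^b)`, split `n = k + (n-k)`. -/
def S_UPB : Prop :=
  ∀ (k n i d : ℕ) (y : ℝ), 1 ≤ i → i < k → 2 * k ≤ n → 0 < y →
    W (k - i) n (((k : ℤ) - (i : ℤ)) * (d : ℤ) - (i : ℤ)) * y ^ (k * d)
      ≤ Real.exp (-((i : ℝ) * min y (1 / 2) * (n : ℝ) / (k : ℝ))) * F k y ^ n

/-- INJ: adding the indicator of an `s`-subset.  Proof by induction on `n` with Pascal:
`C(a-j+s,s) + C(a-j+s,s-1) = C(a-j+s+1,s) ≤ C(a+s,s)` for `j ≥ 1`. -/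
def S_INJ : Prop :=
  ∀ (b n s a : ℕ), (n.choose s : ℝ) * W b n (a : ℤ)
    ≤ ((a + s).choose s : ℝ) * W (b + 1) n ((a : ℤ) + (s : ℤ))

/-- LDM: from INJ with `s = k`, `a = k(d-1)` and `C(N,k) M^k ≥ C(M,k) N^k` for `M ≤ N`. -/
def S_LDM : Prop :=
  ∀ (k n d : ℕ), 1 ≤ k → 1 ≤ d → k * d ≤ n →
    (n : ℝ) ^ k * W d n ((k : ℤ) * ((d : ℤ) - 1))
      ≤ ((k : ℝ) * (d : ℝ)) ^ k * W (d + 1) n ((k : ℤ) * (d : ℤ))

/-- BLK: bulk estimate, from TIL and UPB.  If `d ≥ 72 log n`, `n ≥ 72 k log n` then the error terms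
are at most `2 n^(-9)` times the main term (which may be zero: then everything is zero). -/
def S_BLK : Prop :=
  ∀ (k n d : ℕ), 2 ≤ k → 2 ≤ n → 72 * (k : ℝ) * Real.log n ≤ n → 72 * Real.log n ≤ d →
    ∑ i ∈ Finset.Ico 1 k, (n.choose i : ℝ)
        * W (k - i) n (((k : ℤ) - (i : ℤ)) * (d : ℤ) - (i : ℤ))
      ≤ 2 / (n : ℝ) ^ 9 * W k n ((k : ℤ) * (d : ℤ))

/-- the target, on the level of `W` -/
def S_FIN : Prop :=
  ∃ C : ℝ, ∀ (n k : ℕ), 0 < k → k < n → C * (k : ℝ) * Real.log n ≤ n →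
    ∀ h : ℕ → ℝ, (∀ d : ℕ, h d = ∑ j ∈ Finset.range (d + 1), (-1 : ℝ) ^ j * (n.choose j : ℝ)
        * W (d - j + 1) n ((k : ℤ) * ((d : ℤ) - (j : ℤ)))) →
    (∀ d : ℕ, 2 * k * d + k < n * (k - 1) → h d < h (d + 1)) ∧
    (∀ d : ℕ, n * (k - 1) < 2 * k * d + k → h (d + 1) ≤ h d)

end Pool.Agent.H87.HY
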